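import Mathlib

/-!
# Jet ideals of the edge ideal of the triangle
-/

set_option autoImplicit false

namespace Pool.Agent.X21.Jet

open MvPolynomial

variable {k : Type} [Field k]

/-- substitute `x_i ↦ ∑_{j ≤ s} x_{i,j} t^j` -/
noncomputable def subst (k : Type) [Field k] (σ : Type) (s : ℕ) :
    MvPolynomial σ k →ₐ[k] Polynomial (MvPolynomial (σ × Fin (s + 1)) k) :=
  aeval (fun i => ∑ j : Fin (s + 1), Polynomial.C (X (i, j)) * Polynomial.X ^ (j : ℕ))

/-- the `s`-jet ideal -/
noncomputable def jetIdeal {k : Type} [Field k] {σ : Type} (s : ℕ) (I : Ideal (MvPolynomial σ k)) :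
    Ideal (MvPolynomial (σ × Fin (s + 1)) k) :=
  Ideal.span {g | ∃ f ∈ I, ∃ j ≤ s, g = (subst k σ s f).coeff j}

/-- the edge ideal of a family of subsets -/
noncomputable def edgeIdeal (k : Type) [Field k] {σ : Type} (C : Set (Finset σ)) :
    Ideal (MvPolynomial σ k) :=
  Ideal.span {g | ∃ e ∈ C, g = ∏ i ∈ e, X i}

lemma coeff_mem {σ : Type} {s j : ℕ} {I : Ideal (MvPolynomial σ k)} {f : MvPolynomial σ k}
    (hf : f ∈ I) (hj : j ≤ s) : (subst k σ s f).coeff j ∈ jetIdeal s I :=
  Ideal.subset_span ⟨f, hf, j, hj, rfl⟩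

/-- checking on generators -/
lemma jetIdeal_le {σ : Type} {s : ℕ} {C : Set (Finset σ)}
    {K : Ideal (MvPolynomial (σ × Fin (s + 1)) k)}
    (h : ∀ e ∈ C, ∀ j ≤ s, (subst k σ s (∏ i ∈ e, X i)).coeff j ∈ K) :
    jetIdeal s (edgeIdeal k C) ≤ K := by
  rw [jetIdeal, Ideal.span_le]
  rintro g ⟨f, hf, j, hj, rfl⟩
  rw [edgeIdeal] at hf
  revert j
  induction hf using Submodule.span_induction with
  | mem x hx =>
    obtain ⟨e, he, rfl⟩ := hx
    intro j hj
    exact h e he j hj
  | zero =>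
    intro j hj
    rw [map_zero, Polynomial.coeff_zero]
    exact K.zero_mem
  | add x y _ _ hx hy =>
    intro j hj
    rw [map_add, Polynomial.coeff_add]
    exact K.add_mem (hx j hj) (hy j hj)
  | smul a x _ hx =>
    intro j hj
    rw [smul_eq_mul, map_mul, Polynomial.coeff_mul]
    refine K.sum_mem fun p hp => K.mul_mem_left _ (hx _ ?_)
    have := Finset.HasAntidiagonal.mem_antidiagonal.mp hp
    omega

lemma subst_X {σ : Type} {s : ℕ} (i : σ) (j : Fin (s + 1)) :
    (subst k σ s (X i)).coeff j = X (i, j) := by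
  rw [subst, aeval_X, Polynomial.finsetSum_coeff, Finset.sum_eq_single j]
  · simp
  · intro b _ hb
    rw [Polynomial.coeff_C_mul, Polynomial.coeff_X_pow, if_neg, mul_zero]
    intro h
    exact hb (Fin.ext h.symm)
  · intro h
    exact absurd (Finset.mem_univ j) h

section one

variable {σ : Type} (a b : σ)

lemma c10 : (subst k σ 1 (X a * X b)).coeff 0 = X (a, 0) * X (b, 0) := by
  have h := fun i => subst_X (k := k) (s := 1) (i := (i : σ)) 0
  rw [map_mul, Polynomial.mul_coeff_zero]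
  exact congrArg₂ _ (h a) (h b)

lemma c11 : (subst k σ 1 (X a * X b)).coeff 1 = X (a, 0) * X (b, 1) + X (a, 1) * X (b, 0) := by
  have h0 := fun i => subst_X (k := k) (s := 1) (i := (i : σ)) 0
  have h1 := fun i => subst_X (k := k) (s := 1) (i := (i : σ)) 1
  simp only [Fin.val_zero, Fin.val_one] at h0 h1
  rw [map_mul, Polynomial.coeff_mul, Finset.Nat.antidiagonal_succ]
  simp [h0, h1]

end one

section two

variable {σ : Type} (a b : σ)

lemma c20 : (subst k σ 2 (X a * X b)).coeff 0 = X (a, 0) * X (b, 0) := by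
  have h := fun i => subst_X (k := k) (s := 2) (i := (i : σ)) 0
  rw [map_mul, Polynomial.mul_coeff_zero]
  exact congrArg₂ _ (h a) (h b)

lemma c21 : (subst k σ 2 (X a * X b)).coeff 1 = X (a, 0) * X (b, 1) + X (a, 1) * X (b, 0) := by
  have h0 := fun i => subst_X (k := k) (s := 2) (i := (i : σ)) 0
  have h1 := fun i => subst_X (k := k) (s := 2) (i := (i : σ)) 1
  simp only [Fin.val_zero, Fin.val_one] at h0 h1
  rw [map_mul, Polynomial.coeff_mul, Finset.Nat.antidiagonal_succ]
  simp [h0, h1]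

lemma c22 : (subst k σ 2 (X a * X b)).coeff 2
    = X (a, 0) * X (b, 2) + X (a, 1) * X (b, 1) + X (a, 2) * X (b, 0) := by
  have h0 := fun i => subst_X (k := k) (s := 2) (i := (i : σ)) 0
  have h1 := fun i => subst_X (k := k) (s := 2) (i := (i : σ)) 1
  have h2 := fun i => subst_X (k := k) (s := 2) (i := (i : σ)) 2
  simp only [Fin.val_zero, Fin.val_one, Fin.val_two] at h0 h1 h2
  have h : Finset.HasAntidiagonal.antidiagonal 2 = ({(0, 2), (1, 1), (2, 0)} : Finset (ℕ × ℕ)) := by
    decide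
  rw [map_mul, Polynomial.coeff_mul, h, Finset.sum_insert (by decide),
    Finset.sum_insert (by decide), Finset.sum_singleton, h0, h1, h2, h0, h1, h2, add_assoc]

end two

/-- the ideal generated by some of the variables is prime, and contains no other variable -/
lemma span_X_prime {τ : Type} (V : Set τ) :
    (Ideal.span (X '' V : Set (MvPolynomial τ k))).IsPrime ∧
      ∀ v, v ∉ V → (X v : MvPolynomial τ k) ∉ Ideal.span (X '' V : Set (MvPolynomial τ k)) := by
  classical
  let φ : MvPolynomial τ k →ₐ[k] MvPolynomial τ k := aeval (fun v => if v ∈ V then 0 else X v)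
  have h : Ideal.span (X '' V : Set (MvPolynomial τ k)) = RingHom.ker φ := by
    apply le_antisymm
    · rw [Ideal.span_le]
      rintro _ ⟨v, hv, rfl⟩
      rw [SetLike.mem_coe, RingHom.mem_ker]
      simp only [φ]
      rw [aeval_X, if_pos hv]
    · intro p hp
      rw [RingHom.mem_ker] at hp
      let π := Ideal.Quotient.mkₐ k (Ideal.span (X '' V : Set (MvPolynomial τ k)))
      have h1 : π.comp φ = π := by
        apply algHom_ext
        intro v
        simp only [AlgHom.comp_apply, φ]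
        rw [aeval_X]
        split_ifs with hv
        · rw [map_zero]
          symm
          exact Ideal.Quotient.eq_zero_iff_mem.mpr (Ideal.subset_span ⟨v, hv, rfl⟩)
        · rfl
      have h2 := DFunLike.congr_fun h1 p
      rw [AlgHom.comp_apply, hp, map_zero] at h2
      exact Ideal.Quotient.eq_zero_iff_mem.mp h2.symm
  rw [h]
  refine ⟨RingHom.ker_isPrime _, fun v hv hmem => ?_⟩
  rw [RingHom.mem_ker] at hmem
  simp only [φ] at hmem
  rw [aeval_X, if_neg hv] at hmem
  exact X_ne_zero v hmem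

/-- a criterion for an embedded component -/
lemma embedded {τ : Type} [Finite τ] (J : Ideal (MvPolynomial τ k)) (f : MvPolynomial τ k)
    (hf : f ∉ J) (V : Set τ) (v : τ) (hv : v ∉ V)
    (hJV : J ≤ Ideal.span (X '' V : Set (MvPolynomial τ k))) (h : ∀ w ∈ V, X w * f ∈ J)
    (hvf : X v * f ∈ J) :
    ∃ P : Ideal (MvPolynomial τ k), P.IsPrime ∧ (∃ g, ∀ a, a ∈ P ↔ a * g ∈ J) ∧
      P ∈ associatedPrimes (MvPolynomial τ k) (MvPolynomial τ k ⧸ J) ∧ P ∉ J.minimalPrimes := by
  have hne : (Ideal.Quotient.mk J f) ≠ 0 := by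
    intro h0
    exact hf (Ideal.Quotient.eq_zero_iff_mem.mp h0)
  obtain ⟨P, hP, hle⟩ := exists_le_isAssociatedPrime_of_isNoetherianRing (MvPolynomial τ k)
    (M := MvPolynomial τ k ⧸ J) (Ideal.Quotient.mk J f) hne
  have hcol : ∀ (g a : MvPolynomial τ k),
      a ∈ (⊥ : Submodule (MvPolynomial τ k) (MvPolynomial τ k ⧸ J)).colon
        {(Ideal.Quotient.mk J g : MvPolynomial τ k ⧸ J)} ↔ a * g ∈ J := by
    intro g a
    rw [Submodule.mem_colon_singleton, Submodule.mem_bot, ← Ideal.Quotient.eq_zero_iff_mem,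
      map_mul]
    rfl
  have hVP : ∀ w ∈ V, (X w : MvPolynomial τ k) ∈ P := fun w hw => hle ((hcol _ _).mpr (h w hw))
  have hvP : (X v : MvPolynomial τ k) ∈ P := hle ((hcol _ _).mpr hvf)
  have hP' := hP
  rw [isAssociatedPrime_iff] at hP'
  obtain ⟨hp, y, hy⟩ := hP'
  obtain ⟨g, rfl⟩ := Ideal.Quotient.mk_surjective y
  refine ⟨P, hp, ⟨g, fun a => ?_⟩, hP, fun hmin => ?_⟩
  · rw [hy]
    exact hcol g a
  · have hJP := hmin.1.2
    have hspan : Ideal.span (X '' V : Set (MvPolynomial τ k)) ≤ P := by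
      rw [Ideal.span_le]
      rintro _ ⟨w, hw, rfl⟩
      exact hVP w hw
    have h2 := hmin.2 ⟨(span_X_prime V).1, hJV⟩ hspan
    exact (span_X_prime V).2 v hv (h2 hvP)

end Pool.Agent.X21.Jet
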