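import Mathlib
import Pool.Agent.X21.Jet.J1

/-!
# The triangle
-/

set_option autoImplicit false

namespace Pool.Agent.X21.Jet

open MvPolynomial

variable {k : Type} [Field k]

/-- the triangle: the three subsets of `{0, 1, 2}` with two elements -/
def triangle : Set (Finset (Fin 3)) := {e | e.card = 2}

lemma mem_edge {a b : Fin 3} (h : a ≠ b) : (X a * X b : MvPolynomial (Fin 3) k) ∈
    edgeIdeal k triangle :=
  Ideal.subset_span ⟨{a, b}, Finset.card_pair h, (Finset.prod_pair h).symm⟩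

lemma triangle_le {s : ℕ} {K : Ideal (MvPolynomial (Fin 3 × Fin (s + 1)) k)}
    (h : ∀ a b : Fin 3, a ≠ b → ∀ j ≤ s, (subst k (Fin 3) s (X a * X b)).coeff j ∈ K) :
    jetIdeal s (edgeIdeal k triangle) ≤ K := by
  apply jetIdeal_le
  intro e he j hj
  obtain ⟨a, b, hab, rfl⟩ := Finset.card_eq_two.mp he
  rw [Finset.prod_pair hab]
  exact h a b hab j hj

lemma mulV {τ : Type} {V : Set τ} {p q : τ} (h : p ∈ V ∨ q ∈ V) :
    (X p * X q : MvPolynomial τ k) ∈ Ideal.span (X '' V : Set (MvPolynomial τ k)) := by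
  rcases h with h | h
  · exact Ideal.mul_mem_right _ _ (Ideal.subset_span ⟨p, h, rfl⟩)
  · exact Ideal.mul_mem_left _ _ (Ideal.subset_span ⟨q, h, rfl⟩)

lemma root_facts (k : Type) [Field k] (s : ℕ) : ∃ (R : Type) (_ : CommRing R) (_ : Algebra k R)
    (ε : R), ε ^ (s + 1) = 0 ∧ ε ^ s ≠ 0 := by
  refine ⟨AdjoinRoot (Polynomial.X ^ (s + 1) : Polynomial k), inferInstance, inferInstance,
    AdjoinRoot.root _, ?_, ?_⟩
  · have h := AdjoinRoot.mk_self (f := (Polynomial.X ^ (s + 1) : Polynomial k))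
    rwa [map_pow, AdjoinRoot.mk_X] at h
  · intro h
    have h1 : AdjoinRoot.mk (Polynomial.X ^ (s + 1) : Polynomial k) (Polynomial.X ^ s) = 0 := by
      rw [map_pow, AdjoinRoot.mk_X]
      exact h
    rw [AdjoinRoot.mk_eq_zero] at h1
    have h2 := Polynomial.degree_le_of_dvd h1 (pow_ne_zero _ Polynomial.X_ne_zero)
    rw [Polynomial.degree_X_pow, Polynomial.degree_X_pow] at h2
    have h3 : s + 1 ≤ s := by exact_mod_cast h2
    omega

theorem triangle_one (h2 : (2 : k) ≠ 0) :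
    ∃ P : Ideal (MvPolynomial (Fin 3 × Fin 2) k), P.IsPrime ∧
      (∃ g, ∀ a, a ∈ P ↔ a * g ∈ jetIdeal 1 (edgeIdeal k triangle)) ∧
      P ∈ associatedPrimes (MvPolynomial (Fin 3 × Fin 2) k)
        (MvPolynomial (Fin 3 × Fin 2) k ⧸ jetIdeal 1 (edgeIdeal k triangle)) ∧
      P ∉ (jetIdeal 1 (edgeIdeal k triangle)).minimalPrimes := by
  classical
  set J := jetIdeal 1 (edgeIdeal k triangle) with hJ
  have E0 : ∀ a b : Fin 3, a ≠ b →
      (X (a, 0) * X (b, 0) : MvPolynomial (Fin 3 × Fin 2) k) ∈ J := by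
    intro a b hab
    have := coeff_mem (k := k) (s := 1) (j := 0) (mem_edge hab) (by norm_num)
    rwa [c10] at this
  have E1 : ∀ a b : Fin 3, a ≠ b →
      (X (a, 0) * X (b, 1) + X (a, 1) * X (b, 0) : MvPolynomial (Fin 3 × Fin 2) k) ∈ J := by
    intro a b hab
    have := coeff_mem (k := k) (s := 1) (j := 1) (mem_edge hab) (by norm_num)
    rwa [c11] at this
  have h01 : (0 : Fin 3) ≠ 1 := by decide
  have h02 : (0 : Fin 3) ≠ 2 := by decide
  have h12 : (1 : Fin 3) ≠ 2 := by decide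
  refine embedded J (X (0, 0) * X (1, 1)) ?_
    (({(0, 0), (1, 0), (2, 0)} : Finset (Fin 3 × Fin 2)) : Set (Fin 3 × Fin 2)) (2, 1) ?_ ?_ ?_ ?_
  · obtain ⟨R, _, _, ε, h1, h0⟩ := root_facts k 1
    let val : Fin 3 → Fin 2 → R := ![![ε, 1], ![-ε, 1], ![0, 0]]
    let φ : MvPolynomial (Fin 3 × Fin 2) k →ₐ[k] R := aeval (fun p => val p.1 p.2)
    have hle : J ≤ RingHom.ker φ := by
      apply triangle_le
      intro a b hab j hj
      rw [RingHom.mem_ker]
      have hj' : j = 0 ∨ j = 1 := by omega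
      have hε : ε * ε = 0 := by rw [← pow_two]; exact h1
      rcases hj' with rfl | rfl
      · rw [c10]
        simp only [map_mul, φ, aeval_X]
        fin_cases a <;> fin_cases b <;> simp_all [val]
      · rw [c11]
        simp only [map_mul, map_add, φ, aeval_X]
        fin_cases a <;> fin_cases b <;> simp_all [val]
    intro hf
    have h3 := hle hf
    rw [RingHom.mem_ker, map_mul] at h3
    simp only [φ, aeval_X] at h3
    apply h0
    simpa [val] using h3
  · rw [Finset.mem_coe]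
    decide
  · apply triangle_le
    intro a b hab j hj
    have hj' : j = 0 ∨ j = 1 := by omega
    have key : ∀ a b : Fin 3, a ≠ b →
        ((a, (0 : Fin 2)) ∈ ({(0, 0), (1, 0), (2, 0)} : Finset (Fin 3 × Fin 2))) := by decide
    have k1 := key a b hab
    have k2 := key b a hab.symm
    rcases hj' with rfl | rfl
    · rw [c10]
      exact mulV (Or.inl k1)
    · rw [c11]
      exact Ideal.add_mem _ (mulV (Or.inl k1)) (mulV (Or.inr k2))
  · intro w hw
    rw [Finset.mem_coe] at hw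
    simp only [Finset.mem_insert, Finset.mem_singleton] at hw
    rcases hw with rfl | rfl | rfl
    · have : (X (0, 0) * (X (0, 0) * X (1, 1)) : MvPolynomial (Fin 3 × Fin 2) k)
          = X (0, 0) * (X (0, 0) * X (1, 1) + X (0, 1) * X (1, 0))
            - X (0, 1) * (X (0, 0) * X (1, 0)) := by ring
      rw [this]
      exact J.sub_mem (J.mul_mem_left _ (E1 0 1 h01)) (J.mul_mem_left _ (E0 0 1 h01))
    · have : (X (1, 0) * (X (0, 0) * X (1, 1)) : MvPolynomial (Fin 3 × Fin 2) k)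
          = X (1, 1) * (X (0, 0) * X (1, 0)) := by ring
      rw [this]
      exact J.mul_mem_left _ (E0 0 1 h01)
    · have : (X (2, 0) * (X (0, 0) * X (1, 1)) : MvPolynomial (Fin 3 × Fin 2) k)
          = X (1, 1) * (X (0, 0) * X (2, 0)) := by ring
      rw [this]
      exact J.mul_mem_left _ (E0 0 2 h02)
  · have h3 : (2 : MvPolynomial (Fin 3 × Fin 2) k) * (X (2, 1) * (X (0, 0) * X (1, 1)))
        = X (2, 1) * (X (0, 0) * X (1, 1) + X (0, 1) * X (1, 0))
          + X (1, 1) * (X (0, 0) * X (2, 1) + X (0, 1) * X (2, 0))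
          - X (0, 1) * (X (1, 0) * X (2, 1) + X (1, 1) * X (2, 0)) := by ring
    have h4 : (X (2, 1) * (X (0, 0) * X (1, 1)) : MvPolynomial (Fin 3 × Fin 2) k)
        = C (2⁻¹) * (2 * (X (2, 1) * (X (0, 0) * X (1, 1)))) := by
      have h5 : (C (2⁻¹) * 2 : MvPolynomial (Fin 3 × Fin 2) k) = 1 := by
        rw [show (2 : MvPolynomial (Fin 3 × Fin 2) k) = C 2 from (map_ofNat C 2).symm, ← C_mul,
          inv_mul_cancel₀ h2, C_1]
      rw [← mul_assoc (C (2⁻¹)) 2, h5, one_mul]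
    rw [h4, h3]
    exact J.mul_mem_left _ (J.sub_mem (J.add_mem (J.mul_mem_left _ (E1 0 1 h01))
      (J.mul_mem_left _ (E1 0 2 h02))) (J.mul_mem_left _ (E1 1 2 h12)))

theorem triangle_two (h3 : (3 : k) ≠ 0) :
    ∃ P : Ideal (MvPolynomial (Fin 3 × Fin 3) k), P.IsPrime ∧
      (∃ g, ∀ a, a ∈ P ↔ a * g ∈ jetIdeal 2 (edgeIdeal k triangle)) ∧
      P ∈ associatedPrimes (MvPolynomial (Fin 3 × Fin 3) k)
        (MvPolynomial (Fin 3 × Fin 3) k ⧸ jetIdeal 2 (edgeIdeal k triangle)) ∧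
      P ∉ (jetIdeal 2 (edgeIdeal k triangle)).minimalPrimes := by
  classical
  set J := jetIdeal 2 (edgeIdeal k triangle) with hJ
  have E0 : ∀ a b : Fin 3, a ≠ b →
      (X (a, 0) * X (b, 0) : MvPolynomial (Fin 3 × Fin 3) k) ∈ J := by
    intro a b hab
    have := coeff_mem (k := k) (s := 2) (j := 0) (mem_edge hab) (by norm_num)
    rwa [c20] at this
  have E1 : ∀ a b : Fin 3, a ≠ b →
      (X (a, 0) * X (b, 1) + X (a, 1) * X (b, 0) : MvPolynomial (Fin 3 × Fin 3) k) ∈ J := by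
    intro a b hab
    have := coeff_mem (k := k) (s := 2) (j := 1) (mem_edge hab) (by norm_num)
    rwa [c21] at this
  have E2 : ∀ a b : Fin 3, a ≠ b →
      (X (a, 0) * X (b, 2) + X (a, 1) * X (b, 1) + X (a, 2) * X (b, 0) :
        MvPolynomial (Fin 3 × Fin 3) k) ∈ J := by
    intro a b hab
    have := coeff_mem (k := k) (s := 2) (j := 2) (mem_edge hab) (by norm_num)
    rwa [c22] at this
  have h01 : (0 : Fin 3) ≠ 1 := by decide
  have h02 : (0 : Fin 3) ≠ 2 := by decide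
  have h12 : (1 : Fin 3) ≠ 2 := by decide
  refine embedded J (X (0, 0) ^ 2 * X (1, 2)) ?_
    (({(0, 0), (1, 0), (1, 1), (2, 0), (2, 1)} : Finset (Fin 3 × Fin 3)) : Set (Fin 3 × Fin 3))
    (2, 2) ?_ ?_ ?_ ?_
  · obtain ⟨R, _, _, ε, h1, h0⟩ := root_facts k 2
    let val : Fin 3 → Fin 3 → R := ![![ε, 1, 0], ![ε * ε, -ε, 1], ![0, 0, 0]]
    let φ : MvPolynomial (Fin 3 × Fin 3) k →ₐ[k] R := aeval (fun p => val p.1 p.2)
    have hle : J ≤ RingHom.ker φ := by
      apply triangle_le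
      intro a b hab j hj
      rw [RingHom.mem_ker]
      have hj' : j = 0 ∨ j = 1 ∨ j = 2 := by omega
      have hε : ε * (ε * ε) = 0 := by rw [← h1]; ring
      have hε' : ε * ε * ε = 0 := by rw [← h1]; ring
      rcases hj' with rfl | rfl | rfl
      · rw [c20]
        simp only [map_mul, φ, aeval_X]
        fin_cases a <;> fin_cases b <;> simp_all [val]
      · rw [c21]
        simp only [map_mul, map_add, φ, aeval_X]
        fin_cases a <;> fin_cases b <;> simp_all [val]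
      · rw [c22]
        simp only [map_mul, map_add, φ, aeval_X]
        fin_cases a <;> fin_cases b <;> simp_all [val]
    intro hf
    have h3 := hle hf
    rw [RingHom.mem_ker, map_mul, map_pow] at h3
    simp only [φ, aeval_X] at h3
    apply h0
    simpa [val] using h3
  · rw [Finset.mem_coe]
    decide
  · apply triangle_le
    intro a b hab j hj
    have hj' : j = 0 ∨ j = 1 ∨ j = 2 := by omega
    have key0 : ∀ a : Fin 3,
        ((a, (0 : Fin 3)) ∈ ({(0, 0), (1, 0), (1, 1), (2, 0), (2, 1)} : Finset (Fin 3 × Fin 3))) := by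
      decide
    have key1 : ∀ a b : Fin 3, a ≠ b →
        ((a, (1 : Fin 3)) ∈ ({(0, 0), (1, 0), (1, 1), (2, 0), (2, 1)} : Finset (Fin 3 × Fin 3))) ∨
        ((b, (1 : Fin 3)) ∈ ({(0, 0), (1, 0), (1, 1), (2, 0), (2, 1)} : Finset (Fin 3 × Fin 3))) := by
      decide
    rcases hj' with rfl | rfl | rfl
    · rw [c20]
      exact mulV (Or.inl (key0 a))
    · rw [c21]
      exact Ideal.add_mem _ (mulV (Or.inl (key0 a))) (mulV (Or.inr (key0 b)))
    · rw [c22]
      exact Ideal.add_mem _ (Ideal.add_mem _ (mulV (Or.inl (key0 a))) (mulV (key1 a b hab)))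
        (mulV (Or.inr (key0 b)))
  · intro w hw
    rw [Finset.mem_coe] at hw
    simp only [Finset.mem_insert, Finset.mem_singleton] at hw
    rcases hw with rfl | rfl | rfl | rfl | rfl
    · have : (X (0, 0) * (X (0, 0) ^ 2 * X (1, 2)) : MvPolynomial (Fin 3 × Fin 3) k)
          = X (0, 0) ^ 2 * (X (0, 0) * X (1, 2) + X (0, 1) * X (1, 1) + X (0, 2) * X (1, 0))
            - X (0, 0) * X (0, 1) * (X (0, 0) * X (1, 1) + X (0, 1) * X (1, 0))
            + (X (0, 1) ^ 2 - X (0, 0) * X (0, 2)) * (X (0, 0) * X (1, 0)) := by ring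
      rw [this]
      exact J.add_mem (J.sub_mem (J.mul_mem_left _ (E2 0 1 h01)) (J.mul_mem_left _ (E1 0 1 h01)))
        (J.mul_mem_left _ (E0 0 1 h01))
    · have : (X (1, 0) * (X (0, 0) ^ 2 * X (1, 2)) : MvPolynomial (Fin 3 × Fin 3) k)
          = X (0, 0) * X (1, 2) * (X (0, 0) * X (1, 0)) := by ring
      rw [this]
      exact J.mul_mem_left _ (E0 0 1 h01)
    · have : (X (1, 1) * (X (0, 0) ^ 2 * X (1, 2)) : MvPolynomial (Fin 3 × Fin 3) k)
          = X (0, 0) * X (1, 2) * (X (0, 0) * X (1, 1) + X (0, 1) * X (1, 0))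
            - X (0, 1) * X (1, 2) * (X (0, 0) * X (1, 0)) := by ring
      rw [this]
      exact J.sub_mem (J.mul_mem_left _ (E1 0 1 h01)) (J.mul_mem_left _ (E0 0 1 h01))
    · have : (X (2, 0) * (X (0, 0) ^ 2 * X (1, 2)) : MvPolynomial (Fin 3 × Fin 3) k)
          = X (0, 0) * X (1, 2) * (X (0, 0) * X (2, 0)) := by ring
      rw [this]
      exact J.mul_mem_left _ (E0 0 2 h02)
    · have : (X (2, 1) * (X (0, 0) ^ 2 * X (1, 2)) : MvPolynomial (Fin 3 × Fin 3) k)
          = X (0, 0) * X (1, 2) * (X (0, 0) * X (2, 1) + X (0, 1) * X (2, 0))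
            - X (0, 1) * X (1, 2) * (X (0, 0) * X (2, 0)) := by ring
      rw [this]
      exact J.sub_mem (J.mul_mem_left _ (E1 0 2 h02)) (J.mul_mem_left _ (E0 0 2 h02))
  · have h4 : (3 : MvPolynomial (Fin 3 × Fin 3) k) * (X (2, 2) * (X (0, 0) ^ 2 * X (1, 2)))
        = X (0, 1) ^ 2 * (X (1, 0) * X (2, 2) + X (1, 1) * X (2, 1) + X (1, 2) * X (2, 0))
          + (2 * (X (0, 0) * X (1, 2)) - (X (0, 0) * X (1, 2) + X (0, 1) * X (1, 1)
              + X (0, 2) * X (1, 0)))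
            * (X (0, 0) * X (2, 2) + X (0, 1) * X (2, 1) + X (0, 2) * X (2, 0))
          - X (0, 1) * X (1, 2) * (X (0, 0) * X (2, 1) + X (0, 1) * X (2, 0))
          - X (0, 2) * X (1, 2) * (X (0, 0) * X (2, 0))
          + 2 * (X (0, 0) * X (2, 2))
            * (X (0, 0) * X (1, 2) + X (0, 1) * X (1, 1) + X (0, 2) * X (1, 0))
          - X (0, 1) * X (2, 2) * (X (0, 0) * X (1, 1) + X (0, 1) * X (1, 0))
          - X (0, 2) * X (2, 2) * (X (0, 0) * X (1, 0))
          + X (0, 1) * X (0, 2) * (X (1, 0) * X (2, 1) + X (1, 1) * X (2, 0))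
          + X (0, 2) ^ 2 * (X (1, 0) * X (2, 0)) := by ring
    have h5 : (X (2, 2) * (X (0, 0) ^ 2 * X (1, 2)) : MvPolynomial (Fin 3 × Fin 3) k)
        = C (3⁻¹) * (3 * (X (2, 2) * (X (0, 0) ^ 2 * X (1, 2)))) := by
      have h5 : (C (3⁻¹) * 3 : MvPolynomial (Fin 3 × Fin 3) k) = 1 := by
        rw [show (3 : MvPolynomial (Fin 3 × Fin 3) k) = C 3 from (map_ofNat C 3).symm, ← C_mul,
          inv_mul_cancel₀ h3, C_1]
      rw [← mul_assoc (C (3⁻¹)) 3, h5, one_mul]
    rw [h5, h4]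
    refine J.mul_mem_left _ ?_
    exact J.add_mem (J.add_mem (J.sub_mem (J.sub_mem (J.add_mem (J.sub_mem (J.sub_mem (J.add_mem
      (J.mul_mem_left _ (E2 1 2 h12)) (J.mul_mem_left _ (E2 0 2 h02)))
      (J.mul_mem_left _ (E1 0 2 h02))) (J.mul_mem_left _ (E0 0 2 h02)))
      (J.mul_mem_left _ (E2 0 1 h01))) (J.mul_mem_left _ (E1 0 1 h01)))
      (J.mul_mem_left _ (E0 0 1 h01))) (J.mul_mem_left _ (E1 1 2 h12)))
      (J.mul_mem_left _ (E0 1 2 h12))

end Pool.Agent.X21.Jet
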